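import Pool.Agent.Helper44_Art.Stmt2
import Pool.Agent.Helper44_Art.Api
import Pool.Agent.Helper48_Art.Vr1

set_option autoImplicit false

/-!
# Module VRW: the window property gives a virtual retraction
-/

namespace Art.H15

open Art Art.H48

theorem fold_fwd {E : Type} (σ : ℕ → Equiv.Perm E) (p : ℕ → E) (m : ℕ)
    (h : ∀ k < m, σ k (p k) = p (k + 1)) :
    ((List.range m).map σ).reverse.prod (p 0) = p m := by
  induction m with
  | zero => simp
  | succ m ih =>
    rw [List.range_succ, List.map_append, List.reverse_append, List.prod_append,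
      Equiv.Perm.mul_apply, ih (fun k hk => h k (by omega))]
    simpa using h m (by omega)

theorem fold_bwd {E : Type} (σ : ℕ → Equiv.Perm E) (p : ℕ → E) (m : ℕ)
    (h : ∀ k < m, σ k (p (k + 1)) = p k) :
    ((List.range m).map σ).prod (p m) = p 0 := by
  induction m with
  | zero => simp
  | succ m ih =>
    rw [List.range_succ, List.map_append, List.prod_append, Equiv.Perm.mul_apply]
    have h1 := h m (by omega)
    have h2 : (List.map σ [m]).prod (p (m + 1)) = p m := by simpa using h1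
    rw [h2]
    exact ih (fun k hk => h k (by omega))

section Dih

variable {F : Type} [Group F]

theorem refl_conj (s t : F) (hs : s * s = 1) (ht : t * t = 1) (k : ℤ) :
    s * (s * t) ^ k = (s * t) ^ (-k) * s := by
  have hsi : s⁻¹ = s := inv_eq_of_mul_eq_one_right hs
  have hti : t⁻¹ = t := inv_eq_of_mul_eq_one_right ht
  have h1 : s * (s * t) ^ k * s⁻¹ = (s * (s * t) * s⁻¹) ^ k := by rw [conj_zpow]
  have h2 : s * (s * t) * s⁻¹ = (s * t)⁻¹ := by
    rw [mul_inv_rev, hsi, hti, ← mul_assoc, hs, one_mul]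
  rw [h2, inv_zpow', hsi] at h1
  rw [← h1, mul_assoc, hs, mul_one]

/-- The reflections of the dihedral group, indexed by integers. -/
def tz (s t : F) (k : ℤ) : F := (s * t) ^ k * s

theorem tz_mul (s t : F) (hs : s * s = 1) (ht : t * t = 1) (i j : ℤ) :
    tz s t i * tz s t j = (s * t) ^ (i - j) := by
  unfold tz
  rw [mul_assoc, ← mul_assoc s, refl_conj s t hs ht, mul_assoc, hs, mul_one, ← zpow_add,
    sub_eq_add_neg]

theorem tz_sq (s t : F) (hs : s * s = 1) (ht : t * t = 1) (i : ℤ) :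
    tz s t i * tz s t i = 1 := by
  rw [tz_mul s t hs ht, sub_self, zpow_zero]

theorem tz_inv (s t : F) (hs : s * s = 1) (ht : t * t = 1) (i : ℤ) :
    (tz s t i)⁻¹ = tz s t i := inv_eq_of_mul_eq_one_right (tz_sq s t hs ht i)

theorem rot_tz (s t : F) (i j : ℤ) : (s * t) ^ i * tz s t j = tz s t (i + j) := by
  unfold tz
  rw [← mul_assoc, ← zpow_add]

theorem tz_rot (s t : F) (hs : s * s = 1) (ht : t * t = 1) (i j : ℤ) :
    tz s t i * (s * t) ^ j = tz s t (i - j) := by
  unfold tz
  rw [mul_assoc, refl_conj s t hs ht, ← mul_assoc, ← zpow_add, sub_eq_add_neg]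

/-- The product of the first `q` active reflections, `j` the first index, `δ` the step. -/
def wt (s t : F) (j δ : ℤ) (q : ℕ) : F :=
  if Even q then (s * t) ^ (-((q / 2 : ℕ) : ℤ) * δ) else tz s t (j + ((q / 2 : ℕ) : ℤ) * δ)

theorem wt_succ (s t : F) (hs : s * s = 1) (ht : t * t = 1) (j δ : ℤ) (q : ℕ) :
    wt s t j δ q * tz s t (j + (q : ℤ) * δ) = wt s t j δ (q + 1) := by
  unfold wt
  rcases Nat.even_or_odd' q with ⟨r, rfl | rfl⟩
  · have h1 : Even (2 * r) := by simp
    have h2 : ¬ Even (2 * r + 1) := by simp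
    have h3 : (2 * r + 1) / 2 = r := by omega
    rw [if_pos h1, if_neg h2, rot_tz, h3]
    congr 1
    have h4 : 2 * r / 2 = r := by omega
    rw [h4]
    push_cast
    ring
  · have h1 : ¬ Even (2 * r + 1) := by simp
    have h2 : Even (2 * r + 1 + 1) := by
      rw [show 2 * r + 1 + 1 = 2 * (r + 1) by ring]; simp
    have h3 : (2 * r + 1) / 2 = r := by omega
    have h4 : (2 * r + 1 + 1) / 2 = r + 1 := by omega
    rw [if_neg h1, if_pos h2, tz_mul s t hs ht, h3, h4]
    congr 1
    push_cast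
    ring

/-- Conjugation of the reflections by `wt`. -/
theorem wt_conj (s t : F) (hs : s * s = 1) (ht : t * t = 1) (j δ : ℤ) (q : ℕ) (k : ℤ) :
    wt s t j δ q * tz s t k * (wt s t j δ q)⁻¹ =
      tz s t (if Even q then k - (q : ℤ) * δ else 2 * j + ((q : ℤ) - 1) * δ - k) := by
  unfold wt
  rcases Nat.even_or_odd' q with ⟨r, rfl | rfl⟩
  · have h1 : Even (2 * r) := by simp
    have h4 : 2 * r / 2 = r := by omega
    rw [if_pos h1, if_pos h1, h4, rot_tz, ← zpow_neg, tz_rot s t hs ht]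
    congr 1
    push_cast
    ring
  · have h1 : ¬ Even (2 * r + 1) := by simp
    have h3 : (2 * r + 1) / 2 = r := by omega
    rw [if_neg h1, if_neg h1, h3, tz_inv s t hs ht, tz_mul s t hs ht, rot_tz]
    congr 1
    push_cast
    ring

theorem tz_add_mul (s t : F) (m : ℕ) (hm : (s * t) ^ m = 1) (k : ℤ) (l : ℤ) :
    tz s t (k + l * m) = tz s t k := by
  unfold tz
  rw [zpow_add, mul_comm l, zpow_mul, zpow_natCast, hm, one_zpow, mul_one]

end Dih

/-- The number of active indices below `k`. -/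
theorem count_succ (d j0 : ℕ) (hd : 0 < d) (hj : j0 < d) (k : ℕ) :
    (k % d = j0 → (k + 1 + (d - 1 - j0)) / d = (k + (d - 1 - j0)) / d + 1 ∧
      k = j0 + (k + (d - 1 - j0)) / d * d) ∧
    (k % d ≠ j0 → (k + 1 + (d - 1 - j0)) / d = (k + (d - 1 - j0)) / d) := by
  have hk := Nat.div_add_mod k d
  have hr := Nat.mod_lt k hd
  set e := k / d with he
  set r := k % d with hrr
  have key : ∀ x : ℕ, (d * e + x) / d = e + x / d := fun x => Nat.mul_add_div hd e x
  have h0 : ∀ x : ℕ, x < d → x / d = 0 := fun x hx => Nat.div_eq_of_lt hx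
  have h1 : ∀ x : ℕ, x < d → (d + x) / d = 1 := by
    intro x hx
    rw [Nat.add_div_left x hd, h0 x hx]
  refine ⟨fun h => ?_, fun h => ?_⟩
  · have e1 : k + (d - 1 - j0) = d * e + (d - 1) := by omega
    have e2 : k + 1 + (d - 1 - j0) = d * e + (d + 0) := by omega
    rw [e1, e2, key, key, h0 (d - 1) (by omega), h1 0 hd]
    refine ⟨rfl, ?_⟩
    rw [add_zero, mul_comm e d]
    omega
  · rcases lt_or_gt_of_ne h with h2 | h2
    · have e1 : k + (d - 1 - j0) = d * e + (r + (d - 1 - j0)) := by omega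
      have e2 : k + 1 + (d - 1 - j0) = d * e + (r + 1 + (d - 1 - j0)) := by omega
      rw [e1, e2, key, key, h0 _ (by omega), h0 _ (by omega)]
    · have e1 : k + (d - 1 - j0) = d * e + (d + (r - 1 - j0)) := by omega
      have e2 : k + 1 + (d - 1 - j0) = d * e + (d + (r - j0)) := by omega
      rw [e1, e2, key, key, h1 _ (by omega), h1 _ (by omega)]

section Main

variable {F A : Type} [Group F] [Group A]

/-- The state after `q` active steps. -/
def st (s t : F) (X Y : A) (c g : F) (a : A) (j δ : ℤ) (q : ℕ) : F × A :=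
  (g * (c⁻¹ * wt s t j δ q * c), (if Even q then alt q Y X else alt q X Y) * a)

theorem st_zero (s t : F) (X Y : A) (c g : F) (a : A) (j δ : ℤ) :
    st s t X Y c g a j δ 0 = (g, a) := by
  simp [st, wt, alt]

theorem st_conj (s t : F) (hs : s * s = 1) (ht : t * t = 1) (X Y : A) (c g : F) (a : A)
    (j δ : ℤ) (q : ℕ) (k : ℤ) :
    (st s t X Y c g a j δ q).1 * (c⁻¹ * tz s t k * c) * ((st s t X Y c g a j δ q).1)⁻¹ =
      (g * c⁻¹) * tz s t (if Even q then k - (q : ℤ) * δ else 2 * j + ((q : ℤ) - 1) * δ - k) *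
        (g * c⁻¹)⁻¹ := by
  rw [← wt_conj s t hs ht j δ q k]
  simp only [st]
  group

theorem st_active (s t : F) (hs : s * s = 1) (ht : t * t = 1) (T : Set F) (ν : F → A)
    (X Y : A) (c g : F) (a : A) (j δ : ℤ)
    (hX : g * c⁻¹ * tz s t j * (g * c⁻¹)⁻¹ ∈ T) (hY : g * c⁻¹ * tz s t (j - δ) * (g * c⁻¹)⁻¹ ∈ T)
    (hνX : ν (g * c⁻¹ * tz s t j * (g * c⁻¹)⁻¹) = X)
    (hνY : ν (g * c⁻¹ * tz s t (j - δ) * (g * c⁻¹)⁻¹) = Y) (q : ℕ) (k : ℤ)
    (hk : k = j + (q : ℤ) * δ) :
    eps T ν (c⁻¹ * tz s t k * c) (st s t X Y c g a j δ q) = st s t X Y c g a j δ (q + 1) := by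
  subst hk
  have h1 := st_conj s t hs ht X Y c g a j δ q (j + (q : ℤ) * δ)
  have hw := wt_succ s t hs ht j δ q
  have h2 : (st s t X Y c g a j δ q).1 * (c⁻¹ * tz s t (j + (q : ℤ) * δ) * c) =
      (st s t X Y c g a j δ (q + 1)).1 := by
    simp only [st]
    rw [← hw]
    group
  rcases Nat.even_or_odd q with he | ho
  · rw [if_pos he, show j + (q : ℤ) * δ - (q : ℤ) * δ = j by ring] at h1
    rw [show st s t X Y c g a j δ q = ((st s t X Y c g a j δ q).1, (st s t X Y c g a j δ q).2)
      from rfl, eps_mem _ _ _ _ _ (by rw [h1]; exact hX), h1, hνX, h2]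
    have he' : ¬ Even (q + 1) := by
      rw [Nat.even_add_one]; exact fun h => h he
    refine Prod.ext rfl ?_
    simp only [st]
    rw [if_pos he, if_neg he', alt_succ, mul_assoc]
  · have hne : ¬ Even q := Nat.not_even_iff_odd.2 ho
    rw [if_neg hne, show 2 * j + ((q : ℤ) - 1) * δ - (j + (q : ℤ) * δ) = j - δ by ring] at h1
    rw [show st s t X Y c g a j δ q = ((st s t X Y c g a j δ q).1, (st s t X Y c g a j δ q).2)
      from rfl, eps_mem _ _ _ _ _ (by rw [h1]; exact hY), h1, hνY, h2]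
    have he' : Even (q + 1) := by
      rw [Nat.even_add_one]; exact hne
    refine Prod.ext rfl ?_
    simp only [st]
    rw [if_neg hne, if_pos he', alt_succ, mul_assoc]

theorem st_inactive (s t : F) (hs : s * s = 1) (ht : t * t = 1) (T : Set F) (ν : F → A)
    (X Y : A) (c g : F) (a : A) (j δ d : ℤ) (hδ : d ∣ δ)
    (hact : ∀ k : ℤ, g * c⁻¹ * tz s t k * (g * c⁻¹)⁻¹ ∈ T → d ∣ k - j) (q : ℕ) (k : ℤ)
    (hk : ¬ d ∣ k - j) :
    eps T ν (c⁻¹ * tz s t k * c) (st s t X Y c g a j δ q) = st s t X Y c g a j δ q := by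
  have h1 := st_conj s t hs ht X Y c g a j δ q k
  rw [show st s t X Y c g a j δ q = ((st s t X Y c g a j δ q).1, (st s t X Y c g a j δ q).2)
      from rfl]
  apply eps_not_mem
  rw [h1]
  intro hmem
  have h2 := hact _ hmem
  apply hk
  obtain ⟨e, he⟩ := hδ
  obtain ⟨b, hb⟩ := h2
  rcases Nat.even_or_odd q with hev | ho
  · rw [if_pos hev] at hb
    refine ⟨b + (q : ℤ) * e, ?_⟩
    have : k - j = (k - (q : ℤ) * δ - j) + (q : ℤ) * δ := by ring
    rw [this, hb, he]
    ring
  · have hne : ¬ Even q := Nat.not_even_iff_odd.2 ho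
    rw [if_neg hne] at hb
    refine ⟨((q : ℤ) - 1) * e - b, ?_⟩
    have : k - j = ((q : ℤ) - 1) * δ - (2 * j + ((q : ℤ) - 1) * δ - k - j) := by ring
    rw [this, hb, he]
    ring

theorem mod_iff (d j0 : ℕ) (hj : j0 < d) (n : ℕ) : n % d = j0 ↔ (d : ℤ) ∣ (n : ℤ) - (j0 : ℤ) := by
  rw [← Nat.modEq_iff_dvd, Nat.ModEq, Nat.mod_eq_of_lt hj]
  exact eq_comm

theorem braid (s t : F) (hs : s * s = 1) (ht : t * t = 1) (T : Set F) (ν : F → A) (c g : F)
    (a : A) (m : ℕ) (hm0 : m ≠ 0) (hm : (s * t) ^ m = 1)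
    (hW : (∀ k : ℕ, (g * c⁻¹) * ((s * t) ^ k * s) * (g * c⁻¹)⁻¹ ∉ T) ∨
      ∃ d j0 : ℕ, 0 < d ∧ d ∣ m ∧ j0 < d ∧
      (∀ k : ℕ, (g * c⁻¹) * ((s * t) ^ k * s) * (g * c⁻¹)⁻¹ ∈ T ↔ k % d = j0) ∧
      ∀ k : ℕ, k % d = j0 →
        alt (m / d) (ν ((g * c⁻¹) * ((s * t) ^ k * s) * (g * c⁻¹)⁻¹))
            (ν ((g * c⁻¹) * ((s * t) ^ (k + d) * s) * (g * c⁻¹)⁻¹)) =
        alt (m / d) (ν ((g * c⁻¹) * ((s * t) ^ (k + d) * s) * (g * c⁻¹)⁻¹))
            (ν ((g * c⁻¹) * ((s * t) ^ k * s) * (g * c⁻¹)⁻¹))) :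
    ((List.range m).map (fun k => eps T ν (c⁻¹ * ((s * t) ^ k * s) * c))).prod (g, a) =
      ((List.range m).map (fun k => eps T ν (c⁻¹ * ((s * t) ^ k * s) * c))).reverse.prod
        (g, a) := by
  have htz : ∀ k : ℕ, (s * t) ^ k * s = tz s t (k : ℤ) := by
    intro k
    unfold tz
    rw [zpow_natCast]
  simp only [htz] at hW ⊢
  -- integer version of activity
  have hper : ∀ k : ℤ, tz s t k = tz s t (((k % (m : ℤ)).toNat : ℕ) : ℤ) := by
    intro k
    have h1 : (((k % (m : ℤ)).toNat : ℕ) : ℤ) = k % (m : ℤ) :=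
      Int.toNat_of_nonneg (Int.emod_nonneg _ (by exact_mod_cast hm0))
    rw [h1]
    have h2 : k = k % (m : ℤ) + (k / (m : ℤ)) * (m : ℤ) := by
      rw [mul_comm]; exact (Int.emod_add_mul_ediv k m).symm
    conv_lhs => rw [h2]
    exact tz_add_mul s t m hm _ _
  rcases hW with hno | ⟨d, j0, hd, hdm, hj, hact, hlet⟩
  · have hno' : ∀ k : ℤ, (g * c⁻¹) * tz s t k * (g * c⁻¹)⁻¹ ∉ T := by
      intro k
      rw [hper]
      exact hno _
    have hfix : ∀ k : ℤ, eps T ν (c⁻¹ * tz s t k * c) (g, a) = (g, a) := by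
      intro k
      apply eps_not_mem
      have : g * (c⁻¹ * tz s t k * c) * g⁻¹ = (g * c⁻¹) * tz s t k * (g * c⁻¹)⁻¹ := by group
      rw [this]
      exact hno' k
    rw [fold_fwd (fun k => eps T ν (c⁻¹ * tz s t (k : ℤ) * c)) (fun _ => (g, a)) m
      (fun k _ => hfix _),
      fold_bwd (fun k => eps T ν (c⁻¹ * tz s t (k : ℤ) * c)) (fun _ => (g, a)) m
      (fun k _ => hfix _)]
  · obtain ⟨n, hn⟩ := hdm
    have hn0 : n ≠ 0 := by
      rintro rfl
      exact hm0 (by rw [hn, mul_zero])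
    have hmd : m / d = n := by rw [hn, Nat.mul_div_cancel_left _ hd]
    have hact' : ∀ k : ℤ, (g * c⁻¹) * tz s t k * (g * c⁻¹)⁻¹ ∈ T ↔ (d : ℤ) ∣ k - (j0 : ℤ) := by
      intro k
      rw [hper, hact, mod_iff d j0 hj]
      have h1 : (((k % (m : ℤ)).toNat : ℕ) : ℤ) = k % (m : ℤ) :=
        Int.toNat_of_nonneg (Int.emod_nonneg _ (by exact_mod_cast hm0))
      rw [h1]
      have h2 : k % (m : ℤ) = k - (d : ℤ) * ((n : ℤ) * (k / (m : ℤ))) := by
        have := Int.emod_add_mul_ediv k (m : ℤ)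
        have h3 : (m : ℤ) = (d : ℤ) * (n : ℤ) := by rw [hn]; push_cast; ring
        linear_combination this - (k / (m : ℤ)) * h3
      rw [h2]
      constructor
      · rintro ⟨b, hb⟩
        exact ⟨b + (n : ℤ) * (k / (m : ℤ)), by rw [mul_add, ← hb]; ring⟩
      · rintro ⟨b, hb⟩
        exact ⟨b - (n : ℤ) * (k / (m : ℤ)), by rw [mul_sub, ← hb]; ring⟩
    set u : ℤ → F := fun k => (g * c⁻¹) * tz s t k * (g * c⁻¹)⁻¹ with hu
    set J : ℕ := j0 + (n - 1) * d with hJ
    have hJd : ((J : ℕ) : ℤ) + (d : ℤ) = (j0 : ℤ) + 1 * (m : ℤ) := by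
      rw [hJ, hn]
      obtain ⟨n', rfl⟩ : ∃ n', n = n' + 1 := ⟨n - 1, by omega⟩
      simp only [Nat.add_sub_cancel]
      push_cast
      ring
    have huJ : u ((J : ℤ) + (d : ℤ)) = u (j0 : ℤ) := by
      simp only [hu]
      rw [hJd, tz_add_mul s t m hm]
    have huJ' : u (J : ℤ) = u ((j0 : ℤ) - (d : ℤ)) := by
      simp only [hu]
      have : (J : ℤ) = (j0 : ℤ) - (d : ℤ) + 1 * (m : ℤ) := by linarith
      rw [this, tz_add_mul s t m hm]
    set X : A := ν (u (j0 : ℤ)) with hX
    set Y : A := ν (u (J : ℤ)) with hY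
    have hlJ : alt n Y X = alt n X Y := by
      have h1 : J % d = j0 := by
        rw [hJ, Nat.add_mul_mod_self_right, Nat.mod_eq_of_lt hj]
      have h2 := hlet J h1
      rw [hmd] at h2
      have h3 : ((J + d : ℕ) : ℤ) = (J : ℤ) + (d : ℤ) := by push_cast; ring
      rw [h3] at h2
      have h4 : ν (g * c⁻¹ * tz s t ((J : ℤ) + (d : ℤ)) * (g * c⁻¹)⁻¹) = X := by
        rw [hX, ← huJ]
      rw [h4] at h2
      exact h2
    have hTX : u (j0 : ℤ) ∈ T := (hact' _).2 (by rw [sub_self]; exact dvd_zero _)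
    have hTY : u (J : ℤ) ∈ T := by
      rw [huJ']
      exact (hact' _).2 ⟨-1, by ring⟩
    -- the two trajectories
    set q : ℕ → ℕ := fun k => (k + (d - 1 - j0)) / d with hq
    have hqs := count_succ d j0 hd hj
    have hq0 : q 0 = 0 := by
      simp only [hq, zero_add]
      exact Nat.div_eq_of_lt (by omega)
    have hqm : q m = n := by
      simp only [hq]
      rw [hn, Nat.mul_add_div hd, Nat.div_eq_of_lt (by omega), add_zero]
    have hqle : ∀ k, k ≤ m → q k ≤ n := by
      intro k hk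
      rw [← hqm]
      exact Nat.div_le_div_right (by omega)
    have hfwd := fold_fwd (fun k => eps T ν (c⁻¹ * tz s t (k : ℤ) * c))
      (fun k => st s t X Y c g a (j0 : ℤ) (d : ℤ) (q k)) m (by
        intro k hk
        by_cases hkd : k % d = j0
        · obtain ⟨h1, h2⟩ := (hqs k).1 hkd
          have h1' : q (k + 1) = q k + 1 := h1
          beta_reduce
          rw [h1']
          refine st_active s t hs ht T ν X Y c g a (j0 : ℤ) (d : ℤ) hTX (by
            have := hTY; rw [huJ'] at this; exact this) rfl (by rw [hY, huJ']) (q k) (k : ℤ) ?_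
          have h3 : k = j0 + q k * d := h2
          exact_mod_cast h3
        · have h1 := (hqs k).2 hkd
          have h1' : q (k + 1) = q k := h1
          beta_reduce
          rw [h1']
          refine st_inactive s t hs ht T ν X Y c g a (j0 : ℤ) (d : ℤ) (d : ℤ) (dvd_refl _)
            (fun k hk => (hact' k).1 hk) (q k) (k : ℤ) ?_
          rw [← mod_iff d j0 hj]
          exact hkd)
    have hbwd := fold_bwd (fun k => eps T ν (c⁻¹ * tz s t (k : ℤ) * c))
      (fun k => st s t Y X c g a (J : ℤ) (-(d : ℤ)) (n - q k)) m (by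
        intro k hk
        by_cases hkd : k % d = j0
        · obtain ⟨h1, h2⟩ := (hqs k).1 hkd
          have h1' : q (k + 1) = q k + 1 := h1
          have h4 := hqle (k + 1) (by omega)
          have h5 : n - q k = (n - q (k + 1)) + 1 := by omega
          beta_reduce
          rw [h5]
          refine st_active s t hs ht T ν Y X c g a (J : ℤ) (-(d : ℤ)) hTY (by
            rw [sub_neg_eq_add]
            have := hTX; rw [← huJ] at this; exact this) rfl (by
              rw [sub_neg_eq_add, hX, ← huJ]) (n - q (k + 1)) (k : ℤ) ?_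
          have h3 : k = j0 + q k * d := h2
          have h6 : ((n - q (k + 1) : ℕ) : ℤ) = (n : ℤ) - (q k : ℤ) - 1 := by
            rw [h1'] at h4 ⊢
            rw [Nat.cast_sub h4]
            push_cast
            ring
          rw [h6]
          have h7 : (J : ℤ) = (j0 : ℤ) + ((n : ℤ) - 1) * (d : ℤ) := by
            have h8 : (m : ℤ) = (d : ℤ) * (n : ℤ) := by rw [hn]; push_cast; ring
            have := hJd
            rw [h8] at this
            linarith
          rw [h7]
          have h9 : (k : ℤ) = (j0 : ℤ) + (q k : ℤ) * (d : ℤ) := by exact_mod_cast h3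
          rw [h9]
          ring
        · have h1 := (hqs k).2 hkd
          have h1' : q (k + 1) = q k := h1
          beta_reduce
          rw [h1']
          refine st_inactive s t hs ht T ν Y X c g a (J : ℤ) (-(d : ℤ)) (d : ℤ)
            (by exact ⟨-1, by ring⟩)
            (fun k hk => ?_) (n - q k) (k : ℤ) ?_
          · obtain ⟨b, hb⟩ := (hact' k).1 hk
            refine ⟨b - n + 1, ?_⟩
            have h8 : (m : ℤ) = (d : ℤ) * (n : ℤ) := by rw [hn]; push_cast; ring
            have := hJd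
            rw [h8] at this
            have e1 : k = (j0 : ℤ) + (d : ℤ) * b := by linarith
            have e2 : (J : ℤ) = (j0 : ℤ) + (d : ℤ) * (n : ℤ) - (d : ℤ) := by linarith
            rw [e1, e2]
            ring
          · intro hk2
            apply hkd
            rw [mod_iff d j0 hj]
            obtain ⟨b, hb⟩ := hk2
            refine ⟨b + n - 1, ?_⟩
            have h8 : (m : ℤ) = (d : ℤ) * (n : ℤ) := by rw [hn]; push_cast; ring
            have := hJd
            rw [h8] at this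
            have e2 : (J : ℤ) = (j0 : ℤ) + (d : ℤ) * (n : ℤ) - (d : ℤ) := by linarith
            have e1 : (k : ℤ) = (J : ℤ) + (d : ℤ) * b := by linarith
            rw [e1, e2]
            ring)
    simp only [hq0, hqm, Nat.sub_self, Nat.sub_zero, st_zero] at hfwd hbwd
    rw [hfwd, hbwd]
    -- comparison of the final states
    unfold st
    have hcw : wt s t (J : ℤ) (-(d : ℤ)) n = wt s t (j0 : ℤ) (d : ℤ) n := by
      have h8 : (m : ℤ) = (d : ℤ) * (n : ℤ) := by rw [hn]; push_cast; ring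
      have e2 : (J : ℤ) = (j0 : ℤ) + (d : ℤ) * (n : ℤ) - (d : ℤ) := by
        have := hJd
        rw [h8] at this
        linarith
      unfold wt
      rcases Nat.even_or_odd' n with ⟨r, hr | hr⟩
      · have h1 : Even n := by rw [hr]; simp
        have h4 : n / 2 = r := by omega
        rw [if_pos h1, if_pos h1, h4]
        have h5 : -(r : ℤ) * -(d : ℤ) = -(r : ℤ) * (d : ℤ) + (m : ℤ) := by
          rw [h8, hr]
          push_cast
          ring
        rw [h5, zpow_add, zpow_natCast, hm, mul_one]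
      · have h1 : ¬ Even n := by rw [hr]; simp
        have h4 : n / 2 = r := by omega
        rw [if_neg h1, if_neg h1, h4]
        congr 1
        rw [e2, hr]
        push_cast
        ring
    rw [hcw]
    have hl : (if Even n then alt n X Y else alt n Y X) =
        (if Even n then alt n Y X else alt n X Y) := by
      rw [hlJ]
    rw [hl]

end Main

theorem vrw (hA : ActStmt) (hRet : RetStmt) : VrwStmt := by
  intro S M F A _ _ _ f T ν hsq hpow hWin ι X gA hcl hι hT hν
  have hbraid : ∀ (c : F) (s t : S), M.M s t ≠ 0 →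
      ((List.range (M.M s t)).map
        (fun k => eps T ν (c⁻¹ * ((f s * f t) ^ k * f s) * c))).prod =
      ((List.range (M.M s t)).map
        (fun k => eps T ν (c⁻¹ * ((f s * f t) ^ k * f s) * c))).reverse.prod := by
    intro c s t hst
    apply Equiv.ext
    rintro ⟨g, a⟩
    exact braid (f s) (f t) (hsq s) (hsq t) T ν c g a (M.M s t) hst (hpow s t hst)
      (hWin (g * c⁻¹) s t hst)
  obtain ⟨Φ, hΦ⟩ := hA M f (eps T ν) hsq hpow hbraid
  refine hRet M f T ν Φ hsq ?_ ?_ ι X gA hcl hι hT hν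
  · intro s g a c hm
    rw [hΦ, eps_mem _ _ _ _ _ hm]
  · intro s g a c hm
    rw [hΦ, eps_not_mem _ _ _ _ _ hm]

end Art.H15
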