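import Pool.Agent.Helper15_Art.Vrw

set_option autoImplicit false

/-!
# Module WIN: the window property
-/

namespace Art.H15

open Art

section Basic

variable {S : Type} {M : CoxeterMatrix S}

theorem powM (P : Fin2 M) (x y : S) (h : M.M x y ≠ 0) :
    (P.f x * P.f y) ^ M.M x y = 1 := by
  by_cases he : x = y
  · subst he
    rw [P.sq, one_pow]
  · rw [← P.ord x y he h]
    exact pow_orderOf_eq_one _

theorem zpow_toNat {G : Type} [Group G] (x : G) (m : ℕ) (hm0 : m ≠ 0) (hm : x ^ m = 1) (z : ℤ) :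
    x ^ z = x ^ (z % (m : ℤ)).toNat := by
  have h1 : (((z % (m : ℤ)).toNat : ℕ) : ℤ) = z % (m : ℤ) :=
    Int.toNat_of_nonneg (Int.emod_nonneg _ (by exact_mod_cast hm0))
  rw [← zpow_natCast x (z % (m : ℤ)).toNat, h1]
  conv_lhs => rw [← Int.emod_add_mul_ediv z (m : ℤ)]
  rw [zpow_add, zpow_mul, zpow_natCast, hm, one_zpow, mul_one]

theorem ref_eq_tz (P : Fin2 M) (x y : S) (i : ℕ) :
    ref P.f x y i = tz (P.f x) (P.f y) (i : ℤ) := by
  unfold ref tz
  rw [zpow_natCast]

theorem tz_nat (P : Fin2 M) (x y : S) (h : M.M x y ≠ 0) (i : ℤ) :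
    tz (P.f x) (P.f y) i = ref P.f x y (i % (M.M x y : ℤ)).toNat := by
  unfold tz ref
  rw [← zpow_toNat _ _ h (powM P x y h)]

theorem tz_zero {F : Type} [Group F] (s t : F) : tz s t 0 = s := by simp [tz]

theorem tz_neg_one {F : Type} [Group F] (s t : F) (hs : s * s = 1) (ht : t * t = 1) :
    tz s t (-1) = t := by
  unfold tz
  rw [zpow_neg_one, mul_inv_rev, mul_assoc, inv_mul_cancel, mul_one]
  exact inv_eq_of_mul_eq_one_right ht

theorem tz_swap {F : Type} [Group F] (s t : F) (hs : s * s = 1) (ht : t * t = 1) (i : ℤ) :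
    tz t s i = tz s t (-i - 1) := by
  have h1 : (t * s) = (s * t)⁻¹ := by
    rw [mul_inv_rev, inv_eq_of_mul_eq_one_right hs, inv_eq_of_mul_eq_one_right ht]
  have h2 : tz s t (-1) = t := tz_neg_one s t hs ht
  have h3 : tz t s i = (s * t) ^ (-i) * tz s t (-1) := by
    rw [h2]
    unfold tz
    rw [h1, inv_zpow']
  rw [h3, rot_tz]
  congr 1

/-- The support data of a blocked reflection. -/
structure Sup (S0 : Set S) (P : Fin2 M) {A : Type} [Group A] (a : S → A) (t : P.F) (b : A)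
    (X : Set S) : Prop where
  sub : X ⊆ S0
  memF : t ∈ Subgroup.closure (P.f '' X)
  memA : b ∈ Subgroup.closure (a '' X)
  typ : (∃ x, X = {x} ∧ t = P.f x) ∨
    (∃ x y, x ≠ y ∧ X = {x, y} ∧ 3 ≤ M.M x y ∧ ∃ i : ℤ, t = tz (P.f x) (P.f y) i)

theorem comm_two (P : Fin2 M) (x y : S) (h : M.M x y = 2) :
    P.f x * P.f y = P.f y * P.f x := by
  have h1 := powM P x y (by rw [h]; norm_num)
  rw [h, pow_two] at h1
  have h2 : P.f x * P.f y = (P.f x * P.f y)⁻¹ := (inv_eq_of_mul_eq_one_right h1).symm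
  rw [mul_inv_rev, inv_eq_of_mul_eq_one_right (P.sq x), inv_eq_of_mul_eq_one_right (P.sq y)] at h2
  exact h2

theorem ref_two (P : Fin2 M) (x y : S) (h : M.M x y = 2) (i : ℕ) :
    ref P.f x y i = P.f x ∨ ref P.f x y i = P.f y := by
  have h1 := powM P x y (by rw [h]; norm_num)
  rw [h] at h1
  unfold ref
  rcases Nat.even_or_odd' i with ⟨r, rfl | rfl⟩
  · left
    rw [pow_mul, h1, one_pow, one_mul]
  · right
    rw [pow_succ, pow_mul, h1, one_pow, one_mul, comm_two P x y h, mul_assoc, P.sq, mul_one]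

theorem exists_sup (S0 : Set S) (P : Fin2 M) {A : Type} [Group A] (a : S → A) (ν : P.F → A)
    (hL : Letters M S0 P.f a ν) (x y : S) (hx : x ∈ S0) (hy : y ∈ S0) (hxy : M.M x y ≠ 0)
    (i : ℕ) :
    Sup S0 P a (ref P.f x y i) (ν (ref P.f x y i)) {c | InSupp P.f x y i c} := by
  have hA : ν (ref P.f x y i) ∈ Subgroup.closure (a '' {c | InSupp P.f x y i c}) := by
    have h1 := hL.mem x hx y hy hxy i
    refine Subgroup.closure_mono ?_ h1
    rintro c ⟨s, hs, rfl⟩
    exact ⟨s, hs, rfl⟩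
  have hsub : {c | InSupp P.f x y i c} ⊆ S0 := by
    rintro c ⟨h1 | h1, -⟩
    · rw [h1]; exact hx
    · rw [h1]; exact hy
  have hmem : ∀ c, InSupp P.f x y i c → P.f c ∈
      Subgroup.closure (P.f '' {c | InSupp P.f x y i c}) :=
    fun c hc => Subgroup.subset_closure ⟨c, hc, rfl⟩
  by_cases h1 : ref P.f x y i = P.f x
  · have hX : {c | InSupp P.f x y i c} = {x} := by
      ext c
      simp only [Set.mem_setOf_eq, Set.mem_singleton_iff]
      constructor
      · rintro ⟨-, h2 | h2⟩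
        · exact P.inj _ _ (h2.symm.trans h1)
        · exact absurd h1 h2.1
      · rintro rfl
        exact ⟨Or.inl rfl, Or.inl h1⟩
    have hm : ref P.f x y i ∈ Subgroup.closure (P.f '' {c | InSupp P.f x y i c}) := by
      have hin : InSupp P.f x y i x := ⟨Or.inl rfl, Or.inl h1⟩
      have h3 := hmem x hin
      rwa [← h1] at h3
    exact ⟨hsub, hm, hA, Or.inl ⟨x, hX, h1⟩⟩
  by_cases h2 : ref P.f x y i = P.f y
  · have hX : {c | InSupp P.f x y i c} = {y} := by
      ext c
      simp only [Set.mem_setOf_eq, Set.mem_singleton_iff]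
      constructor
      · rintro ⟨-, h3 | h3⟩
        · exact P.inj _ _ (h3.symm.trans h2)
        · exact absurd h2 h3.2
      · rintro rfl
        exact ⟨Or.inr rfl, Or.inl h2⟩
    have hm : ref P.f x y i ∈ Subgroup.closure (P.f '' {c | InSupp P.f x y i c}) := by
      have hin : InSupp P.f x y i y := ⟨Or.inr rfl, Or.inl h2⟩
      have h3 := hmem y hin
      rwa [← h2] at h3
    exact ⟨hsub, hm, hA, Or.inl ⟨y, hX, h2⟩⟩
  · have hxne : x ≠ y := by
      rintro rfl
      apply h1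
      unfold ref
      rw [P.sq, one_pow, one_mul]
    have hX : {c | InSupp P.f x y i c} = {x, y} := by
      ext c
      simp only [Set.mem_setOf_eq, Set.mem_insert_iff, Set.mem_singleton_iff]
      constructor
      · rintro ⟨h3, -⟩
        exact h3
      · intro h3
        exact ⟨h3, Or.inr ⟨h1, h2⟩⟩
    have h3 : 3 ≤ M.M x y := by
      have h4 : M.M x y ≠ 1 := M.off_diagonal x y hxne
      have h5 : M.M x y ≠ 2 := by
        intro h6
        rcases ref_two P x y h6 i with h7 | h7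
        · exact h1 h7
        · exact h2 h7
      omega
    refine ⟨hsub, ?_, hA, Or.inr ⟨x, y, hxne, hX, h3, (i : ℤ), ref_eq_tz P x y i⟩⟩
    have hx' := hmem x ⟨Or.inl rfl, Or.inr ⟨h1, h2⟩⟩
    have hy' := hmem y ⟨Or.inr rfl, Or.inr ⟨h1, h2⟩⟩
    unfold ref
    exact Subgroup.mul_mem _ (Subgroup.pow_mem _ (Subgroup.mul_mem _ hx' hy') _) hx'

theorem closure_comm {G : Type} [Group G] (X Y : Set G) (h : ∀ x ∈ X, ∀ y ∈ Y, Commute x y)
    (u v : G) (hu : u ∈ Subgroup.closure X) (hv : v ∈ Subgroup.closure Y) : Commute u v := by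
  have h1 : ∀ y ∈ Y, Commute u y := by
    intro y hy
    induction hu using Subgroup.closure_induction with
    | mem x hx => exact h x hx y hy
    | one => exact Commute.one_left y
    | mul a b _ _ ha hb => exact Commute.mul_left ha hb
    | inv a _ ha => exact Commute.inv_left ha
  induction hv using Subgroup.closure_induction with
  | mem y hy => exact h1 y hy
  | one => exact Commute.one_right u
  | mul a b _ _ ha hb => exact Commute.mul_right ha hb
  | inv a _ ha => exact Commute.inv_right ha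

theorem sup_comm (S0 : Set S) (P : Fin2 M) {A : Type} [Group A] (a : S → A)
    (ha : ∀ x ∈ S0, ∀ y ∈ S0, M.M x y ≠ 0 →
      alt (M.M x y) (a x) (a y) = alt (M.M x y) (a y) (a x))
    {t t' : P.F} {b b' : A} {X X' : Set S} (h : Sup S0 P a t b X) (h' : Sup S0 P a t' b' X')
    (h2 : ∀ c ∈ X, ∀ c' ∈ X', M.M c c' = 2) : t * t' = t' * t ∧ b * b' = b' * b := by
  constructor
  · refine closure_comm (P.f '' X) (P.f '' X') ?_ t t' h.memF h'.memF
    rintro _ ⟨c, hc, rfl⟩ _ ⟨c', hc', rfl⟩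
    exact comm_two P c c' (h2 c hc c' hc')
  · refine closure_comm (a '' X) (a '' X') ?_ b b' h.memA h'.memA
    rintro _ ⟨c, hc, rfl⟩ _ ⟨c', hc', rfl⟩
    have h3 := h2 c hc c' hc'
    have h4 := ha c (h.sub hc) c' (h'.sub hc') (by rw [h3]; norm_num)
    rw [h3, alt_two, alt_two] at h4
    exact h4

/-- Conclusion of the case analysis for two blocked reflections. -/
def Concl (S0 : Set S) (P : Fin2 M) {A : Type} [Group A] (t t' : P.F) (b b' : A) : Prop :=
  (t * t' = t' * t ∧ b * b' = b' * b) ∨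
    ∃ x ∈ S0, ∃ y ∈ S0, x ≠ y ∧ 3 ≤ M.M x y ∧
      (∃ i : ℤ, t = tz (P.f x) (P.f y) i) ∧ (∃ i : ℤ, t' = tz (P.f x) (P.f y) i)

theorem Concl.symm {S0 : Set S} {P : Fin2 M} {A : Type} [Group A] {t t' : P.F} {b b' : A}
    (h : Concl S0 P t t' b b') : Concl S0 P t' t b' b := by
  rcases h with ⟨h1, h2⟩ | ⟨x, hx, y, hy, h1, h2, h3, h4⟩
  · exact Or.inl ⟨h1.symm, h2.symm⟩
  · exact Or.inr ⟨x, hx, y, hy, h1, h2, h4, h3⟩

theorem cross_pair (S0 : Set S) (P : Fin2 M) {A : Type} [Group A] (a : S → A)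
    (hD : CondD M S0)
    (ha : ∀ x ∈ S0, ∀ y ∈ S0, M.M x y ≠ 0 →
      alt (M.M x y) (a x) (a y) = alt (M.M x y) (a y) (a x))
    {t t' : P.F} {b b' : A} {X X' : Set S} (h : Sup S0 P a t b X) (h' : Sup S0 P a t' b' X')
    (hx : ∀ c ∈ X, ∀ c' ∈ X', M.M c c' ≠ 0)
    (x y : S) (hxy : x ≠ y) (hX : X = {x, y}) (h3 : 3 ≤ M.M x y)
    (hi : ∃ i : ℤ, t = tz (P.f x) (P.f y) i) : Concl S0 P t t' b b' := by
  have hxX : x ∈ X := by rw [hX]; simp
  have hyX : y ∈ X := by rw [hX]; simp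
  have hx0 := h.sub hxX
  have hy0 := h.sub hyX
  -- a third generator in the support of t'
  have third : ∀ z ∈ X', z ≠ x → z ≠ y → M.M x z = 2 ∧ M.M y z = 2 := by
    intro z hz hzx hzy
    rcases hD x hx0 y hy0 z (h'.sub hz) hxy hzx.symm hzy.symm (by omega) (hx x hxX z hz)
      (hx y hyX z hz) with h4 | h4
    · omega
    · exact h4
  rcases h'.typ with ⟨z, hX', hz⟩ | ⟨z, w, hzw, hX', hzw3, j, hj⟩
  · have hzX : z ∈ X' := by rw [hX']; simp
    by_cases hzx : z = x
    · right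
      refine ⟨x, hx0, y, hy0, hxy, h3, hi, 0, ?_⟩
      rw [tz_zero, hz, hzx]
    by_cases hzy : z = y
    · right
      refine ⟨x, hx0, y, hy0, hxy, h3, hi, -1, ?_⟩
      rw [tz_neg_one _ _ (P.sq x) (P.sq y), hz, hzy]
    · left
      have h4 := third z hzX hzx hzy
      refine sup_comm S0 P a ha h h' ?_
      intro c hc c' hc'
      rw [hX] at hc
      rw [hX'] at hc'
      simp only [Set.mem_insert_iff, Set.mem_singleton_iff] at hc hc'
      rw [hc']
      rcases hc with rfl | rfl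
      · exact h4.1
      · exact h4.2
  · have hzX : z ∈ X' := by rw [hX']; simp
    have hwX : w ∈ X' := by rw [hX']; simp
    have hsym : M.M z w = M.M w z := M.symmetric z w
    by_cases hzx : z = x
    · subst hzx
      by_cases hwy : w = y
      · subst hwy
        exact Or.inr ⟨z, hx0, w, hy0, hxy, h3, hi, j, hj⟩
      · have h4 := third w hwX hzw.symm hwy
        omega
    by_cases hzy : z = y
    · subst hzy
      by_cases hwx : w = x
      · subst hwx
        refine Or.inr ⟨w, hx0, z, hy0, hxy, h3, hi, -j - 1, ?_⟩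
        rw [hj, tz_swap _ _ (P.sq w) (P.sq z)]
      · have h4 := third w hwX hwx hzw.symm
        omega
    have hz4 := third z hzX hzx hzy
    have hwx : w ≠ x := by
      rintro rfl
      omega
    have hwy : w ≠ y := by
      rintro rfl
      omega
    have hw4 := third w hwX hwx hwy
    left
    refine sup_comm S0 P a ha h h' ?_
    intro c hc c' hc'
    rw [hX] at hc
    rw [hX'] at hc'
    simp only [Set.mem_insert_iff, Set.mem_singleton_iff] at hc hc'
    rcases hc with rfl | rfl <;> rcases hc' with rfl | rfl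
    · exact hz4.1
    · exact hw4.1
    · exact hz4.2
    · exact hw4.2

theorem cross (S0 : Set S) (P : Fin2 M) {A : Type} [Group A] (a : S → A)
    (hD : CondD M S0)
    (ha : ∀ x ∈ S0, ∀ y ∈ S0, M.M x y ≠ 0 →
      alt (M.M x y) (a x) (a y) = alt (M.M x y) (a y) (a x))
    {t t' : P.F} {b b' : A} {X X' : Set S} (h : Sup S0 P a t b X) (h' : Sup S0 P a t' b' X')
    (hx : ∀ c ∈ X, ∀ c' ∈ X', M.M c c' ≠ 0) (hne : t ≠ t') : Concl S0 P t t' b b' := by
  rcases h.typ with ⟨x, hX, htx⟩ | ⟨x, y, hxy, hX, h3, hi⟩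
  · rcases h'.typ with ⟨z, hX', htz⟩ | ⟨z, w, hzw, hX', hzw3, hj⟩
    · have hxX : x ∈ X := by rw [hX]; simp
      have hzX : z ∈ X' := by rw [hX']; simp
      have hxz : x ≠ z := by
        rintro rfl
        exact hne (htx.trans htz.symm)
      have h0 := hx x hxX z hzX
      have h1 := M.off_diagonal x z hxz
      by_cases h2 : M.M x z = 2
      · left
        refine sup_comm S0 P a ha h h' ?_
        intro c hc c' hc'
        rw [hX] at hc
        rw [hX'] at hc'
        simp only [Set.mem_singleton_iff] at hc hc'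
        rw [hc, hc']
        exact h2
      · right
        refine ⟨x, h.sub hxX, z, h'.sub hzX, hxz, by omega, ⟨0, ?_⟩, ⟨-1, ?_⟩⟩
        · rw [tz_zero, htx]
        · rw [tz_neg_one _ _ (P.sq x) (P.sq z), htz]
    · apply Concl.symm
      refine cross_pair S0 P a hD ha h' h ?_ z w hzw hX' hzw3 hj
      intro c hc c' hc'
      rw [M.symmetric c c']
      exact hx c' hc' c hc
  · exact cross_pair S0 P a hD ha h h' hx x y hxy hX h3 hi

end Basic

section Abs

variable {F A : Type} [Group F] [Group A]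

/-- Packaging of the result. -/
theorem pack (U : ℕ → F) (m : ℕ) (T : Set F) (ν : F → A) (d : ℕ) (hd : 0 < d) (hdm : d ∣ m)
    (k0 : ℕ) (hJ : ∀ j : ℕ, U j ∈ T ↔ (d : ℤ) ∣ (j : ℤ) - (k0 : ℤ))
    (hl : ∀ k : ℕ, U k ∈ T → alt (m / d) (ν (U k)) (ν (U (k + d))) =
      alt (m / d) (ν (U (k + d))) (ν (U k))) :
    ∃ d j0 : ℕ, 0 < d ∧ d ∣ m ∧ j0 < d ∧ (∀ k : ℕ, U k ∈ T ↔ k % d = j0) ∧
      ∀ k : ℕ, k % d = j0 →
        alt (m / d) (ν (U k)) (ν (U (k + d))) = alt (m / d) (ν (U (k + d))) (ν (U k)) := by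
  have h1 : ∀ k : ℕ, U k ∈ T ↔ k % d = k0 % d := by
    intro k
    rw [hJ]
    rw [← Nat.modEq_iff_dvd]
    exact ⟨fun h => h.symm, fun h => h.symm⟩
  exact ⟨d, k0 % d, hd, hdm, Nat.mod_lt _ hd, h1, fun k hk => hl k ((h1 k).2 hk)⟩

theorem caseB (U : ℕ → F) (m : ℕ) (hm : 0 < m) (T : Set F) (ν : F → A)
    (hU : ∀ k l : ℕ, U k = U l ↔ (m : ℤ) ∣ (k : ℤ) - (l : ℤ))
    (hT : ∀ k l : ℕ, U k ∈ T → U l ∈ T → U k ≠ U l → (m : ℤ) ∣ 2 * ((k : ℤ) - (l : ℤ)) ∧
      ν (U k) * ν (U l) = ν (U l) * ν (U k))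
    (k0 : ℕ) (hk0 : U k0 ∈ T) :
    ∃ d j0 : ℕ, 0 < d ∧ d ∣ m ∧ j0 < d ∧ (∀ k : ℕ, U k ∈ T ↔ k % d = j0) ∧
      ∀ k : ℕ, k % d = j0 →
        alt (m / d) (ν (U k)) (ν (U (k + d))) = alt (m / d) (ν (U (k + d))) (ν (U k)) := by
  by_cases hone : ∀ j : ℕ, U j ∈ T → U j = U k0
  · refine pack U m T ν m hm (dvd_refl m) k0 ?_ ?_
    · intro j
      rw [← hU]
      exact ⟨hone j, fun h => by rw [h]; exact hk0⟩
    · intro k _
      have h1 : U (k + m) = U k := by
        rw [hU]
        exact ⟨1, by push_cast; ring⟩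
      rw [h1]
  · push Not at hone
    obtain ⟨l, hl, hne⟩ := hone
    have h1 := (hT l k0 hl hk0 hne).1
    have h2 : ¬ (m : ℤ) ∣ (l : ℤ) - (k0 : ℤ) := fun h => hne ((hU l k0).2 h)
    -- m is even
    obtain ⟨h, hh⟩ : ∃ h : ℕ, m = 2 * h := by
      rcases Nat.even_or_odd' m with ⟨h, hh | hh⟩
      · exact ⟨h, hh⟩
      · exfalso
        apply h2
        have hco : IsCoprime (m : ℤ) 2 := by
          rw [hh]
          refine ⟨1, -(h : ℤ), ?_⟩
          push_cast
          ring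
        exact hco.dvd_of_dvd_mul_left h1
    have hh0 : 0 < h := by omega
    have hmz : (m : ℤ) = 2 * (h : ℤ) := by exact_mod_cast hh
    have half : ∀ z : ℤ, (m : ℤ) ∣ 2 * z → (h : ℤ) ∣ z := by
      intro z hz
      rw [hmz] at hz
      exact Int.dvd_of_mul_dvd_mul_left (by norm_num) hz
    have dich : ∀ z : ℤ, (h : ℤ) ∣ z → (m : ℤ) ∣ z ∨ (m : ℤ) ∣ z + (h : ℤ) := by
      rintro z ⟨e, he⟩
      rcases Int.even_or_odd' e with ⟨r, hr | hr⟩
      · left
        exact ⟨r, by rw [he, hr, hmz]; ring⟩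
      · right
        exact ⟨r + 1, by rw [he, hr, hmz]; ring⟩
    have hl2 : (m : ℤ) ∣ (l : ℤ) - (k0 : ℤ) + (h : ℤ) := by
      rcases dich _ (half _ h1) with h3 | h3
      · exact absurd h3 h2
      · exact h3
    refine pack U m T ν h hh0 ⟨2, by rw [hh]; ring⟩ k0 ?_ ?_
    · intro j
      constructor
      · intro hj
        by_cases hjk : U j = U k0
        · have h3 := (hU j k0).1 hjk
          exact Dvd.dvd.trans ⟨2, by rw [hmz]; ring⟩ h3
        · exact half _ (hT j k0 hj hk0 hjk).1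
      · intro hj
        rcases dich _ hj with h3 | h3
        · rw [(hU j k0).2 h3]; exact hk0
        · have h4 : U j = U l := by
            rw [hU]
            have := dvd_sub h3 hl2
            have e : (j : ℤ) - (k0 : ℤ) + (h : ℤ) - ((l : ℤ) - (k0 : ℤ) + (h : ℤ)) =
              (j : ℤ) - (l : ℤ) := by ring
            rwa [e] at this
          rw [h4]; exact hl
    · intro k hk
      have hmd : m / h = 2 := by
        rw [hh]; exact Nat.mul_div_left 2 hh0
      rw [hmd, alt_two, alt_two]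
      by_cases he : U (k + h) = U k
      · rw [he]
      · have hkh : U (k + h) ∈ T := by
          -- k is congruent to k0 or to l
          by_cases hkk : U k = U k0
          · have h4 : U (k + h) = U l := by
              rw [hU]
              have h5 := (hU k k0).1 hkk
              have h6 : ((k + h : ℕ) : ℤ) - (l : ℤ) = ((k : ℤ) - (k0 : ℤ)) -
                ((l : ℤ) - (k0 : ℤ) + (h : ℤ)) + (m : ℤ) := by
                rw [hmz]; push_cast; ring
              rw [h6]
              exact dvd_add (dvd_sub h5 hl2) (dvd_refl _)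
            rw [h4]; exact hl
          · have h5 := half _ (hT k k0 hk hk0 hkk).1
            rcases dich _ h5 with h6 | h6
            · exact absurd ((hU k k0).2 h6) hkk
            · have h7 : U (k + h) = U k0 := by
                rw [hU]
                have e : ((k + h : ℕ) : ℤ) - (k0 : ℤ) = (k : ℤ) - (k0 : ℤ) + (h : ℤ) := by
                  push_cast; ring
                rw [e]; exact h6
              rw [h7]; exact hk0
        exact (hT k (k + h) hk hkh (fun e => he e.symm)).2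

end Abs

section Main

variable {S : Type} {M : CoxeterMatrix S}

theorem conj_zpow' {G : Type} [Group G] (v x : G) (z : ℤ) :
    (v * x * v⁻¹) ^ z = v * x ^ z * v⁻¹ := conj_zpow

/-- Products of two conjugated reflections. -/
theorem conj_mul {F : Type} [Group F] (s t v : F) (hs : s * s = 1) (ht : t * t = 1) (i j : ℤ) :
    (v * tz s t i * v⁻¹) * (v * tz s t j * v⁻¹) = v * (s * t) ^ (i - j) * v⁻¹ := by
  rw [← tz_mul s t hs ht i j]
  group

/-- The rotation lemma for integer exponents. -/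
theorem zrot (P : Fin2 M) (x y s t : S) (v : P.F) (z z' : ℤ) (hxy : x ≠ y) (hst : s ≠ t)
    (hM : M.M x y ≠ 0) (hM' : M.M s t ≠ 0)
    (h : v * (P.f s * P.f t) ^ z * v⁻¹ = (P.f x * P.f y) ^ z')
    (h1 : (P.f x * P.f y) ^ z' ≠ 1) :
    ∃ ε : ℤ, (ε = 1 ∨ ε = -1) ∧
      v * (P.f s * P.f t) ^ (M.M s t / Nat.gcd (M.M s t) (M.M x y)) * v⁻¹ =
        (P.f x * P.f y) ^ (ε * ((M.M x y / Nat.gcd (M.M s t) (M.M x y) : ℕ) : ℤ)) := by
  rw [zpow_toNat _ _ hM (powM P x y hM)] at h h1
  rw [zpow_toNat _ _ hM' (powM P s t hM')] at h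
  rcases P.rot x y s t v _ _ hxy hst hM hM' h h1 with h2 | h2
  · exact ⟨1, Or.inl rfl, by rw [h2, one_mul, zpow_natCast]⟩
  · exact ⟨-1, Or.inr rfl, by rw [h2, neg_one_mul, zpow_neg, zpow_natCast]⟩

theorem zplane (P : Fin2 M) (x y a b s t : S) (v : P.F) (n n' l l' : ℤ) (hxy : x ≠ y)
    (hab : a ≠ b) (hst : s ≠ t) (hM : M.M x y ≠ 0) (hM2 : M.M a b ≠ 0) (hM' : M.M s t ≠ 0)
    (h : v * (P.f s * P.f t) ^ n * v⁻¹ = (P.f x * P.f y) ^ n')
    (h1 : (P.f x * P.f y) ^ n' ≠ 1)
    (h2 : v * (P.f s * P.f t) ^ l * v⁻¹ = (P.f a * P.f b) ^ l')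
    (h3 : (P.f a * P.f b) ^ l' ≠ 1) : (a = x ∨ a = y) ∧ (b = x ∨ b = y) := by
  rw [zpow_toNat _ _ hM (powM P x y hM)] at h h1
  rw [zpow_toNat _ _ hM2 (powM P a b hM2)] at h2 h3
  rw [zpow_toNat _ _ hM' (powM P s t hM')] at h h2
  exact P.plane x y a b s t v _ _ _ _ hxy hab hst hM hM2 hM' h h1 h2 h3

/-- The letters of two reflections of the same dihedral group at the distance given by the
rotation lemma. -/
theorem letters (S0 : Set S) (P : Fin2 M) {A : Type} [Group A] (a : S → A) (ν : P.F → A)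
    (hL : Letters M S0 P.f a ν) (x y : S) (hx : x ∈ S0) (hy : y ∈ S0) (hxy : x ≠ y)
    (hM : M.M x y ≠ 0) (m : ℕ) (hG : GoodPair (M.M x y) m) (hg : Nat.gcd m (M.M x y) ≠ 1)
    (i : ℤ) :
    alt (Nat.gcd m (M.M x y)) (ν (tz (P.f x) (P.f y) i))
        (ν (tz (P.f x) (P.f y) (i + ((M.M x y / Nat.gcd m (M.M x y) : ℕ) : ℤ)))) =
      alt (Nat.gcd m (M.M x y))
        (ν (tz (P.f x) (P.f y) (i + ((M.M x y / Nat.gcd m (M.M x y) : ℕ) : ℤ))))
        (ν (tz (P.f x) (P.f y) i)) := by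
  set n : ℕ := (i % (M.M x y : ℤ)).toNat with hn
  have h1 : tz (P.f x) (P.f y) i = ref P.f x y n := tz_nat P x y hM i
  have h2 : ∀ e : ℕ, tz (P.f x) (P.f y) (i + (e : ℤ)) = ref P.f x y (n + e) := by
    intro e
    rw [add_comm i, ← rot_tz, h1]
    unfold ref
    rw [zpow_natCast, ← mul_assoc, ← pow_add, add_comm e n]
  rw [h2, h1]
  rcases hG with h3 | h3 | h3
  · exact absurd h3 hg
  · have hgcd : Nat.gcd m (M.M x y) = M.M x y := Nat.gcd_eq_right h3
    rw [hgcd, Nat.div_self (Nat.pos_of_ne_zero hM)]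
    exact hL.adj x hx y hy hxy hM n
  · obtain ⟨e, he⟩ := h3
    have hev : Even (M.M x y) := by
      have h4 : Nat.gcd m (M.M x y) * (M.M x y / Nat.gcd m (M.M x y)) = M.M x y :=
        Nat.mul_div_cancel' (Nat.gcd_dvd_right _ _)
      rw [← h4]
      exact Even.mul_left ⟨e, he⟩ _
    have h5 : ∀ e : ℕ, ν (ref P.f x y (n + (e + e))) = ν (ref P.f x y n) := by
      intro e
      induction e with
      | zero => simp
      | succ e ih =>
        have h6 := hL.even x hx y hy hxy hM hev (n + (e + e))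
        rw [show n + (e + 1 + (e + 1)) = n + (e + e) + 2 by ring, h6, ih]
    rw [he, h5]

theorem win : WinStmt := by
  intro S _ M S0 P A _ a ν hD hG ha hL v s t hst
  classical
  set T : Set P.F := blocked M S0 P.f with hT
  by_cases hno : ∀ k : ℕ, v * ref P.f s t k * v⁻¹ ∉ T
  · exact Or.inl hno
  right
  push Not at hno
  obtain ⟨k0, hk0⟩ := hno
  -- the case s = t
  by_cases hs : s = t
  · subst hs
    have hc : ∀ k : ℕ, ref P.f s s k = P.f s := by
      intro k
      unfold ref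
      rw [P.sq, one_pow, one_mul]
    have hm : M.M s s = 1 := M.diagonal s
    rw [hc] at hk0
    refine ⟨1, 0, one_pos, one_dvd _, one_pos, ?_, ?_⟩
    · intro k
      rw [hc]
      simp only [Nat.mod_one, iff_true]
      exact hk0
    · intro k _
      rw [hc, hc]
  set m : ℕ := M.M s t with hm
  have hm1 : m ≠ 1 := M.off_diagonal s t hs
  have hmpos : 0 < m := Nat.pos_of_ne_zero hst
  have hord : orderOf (P.f s * P.f t) = m := P.ord s t hs hst
  have hpm : (P.f s * P.f t) ^ m = 1 := powM P s t hst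
  set U : ℕ → P.F := fun k => v * ref P.f s t k * v⁻¹ with hUdef
  have hUz : ∀ k : ℕ, U k = v * tz (P.f s) (P.f t) (k : ℤ) * v⁻¹ := by
    intro k
    simp only [hUdef]
    rw [ref_eq_tz]
  have hUmul : ∀ k l : ℕ, U k * U l = v * (P.f s * P.f t) ^ ((k : ℤ) - (l : ℤ)) * v⁻¹ := by
    intro k l
    rw [hUz, hUz, conj_mul _ _ _ (P.sq s) (P.sq t)]
  have hUsq : ∀ k : ℕ, U k * U k = 1 := by
    intro k
    rw [hUmul, sub_self, zpow_zero, mul_one, mul_inv_cancel]
  have hUinv : ∀ k : ℕ, (U k)⁻¹ = U k := fun k => inv_eq_of_mul_eq_one_right (hUsq k)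
  have hdvd : ∀ z : ℤ, v * (P.f s * P.f t) ^ z * v⁻¹ = 1 ↔ (m : ℤ) ∣ z := by
    intro z
    rw [conj_eq_one_iff, ← hord]
    exact orderOf_dvd_iff_zpow_eq_one.symm
  have hUeq : ∀ k l : ℕ, U k = U l ↔ (m : ℤ) ∣ (k : ℤ) - (l : ℤ) := by
    intro k l
    rw [← hdvd, ← hUmul]
    constructor
    · intro h
      rw [h, hUsq]
    · intro h
      have h1 := eq_inv_of_mul_eq_one_left h
      rw [h1, hUinv]
  -- support data
  have hsup : ∀ k l : ℕ, U k ∈ T → U l ∈ T → U k ≠ U l →
      Concl S0 P (U k) (U l) (ν (U k)) (ν (U l)) := by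
    intro k l hk hl hne
    obtain ⟨x, hx, y, hy, hxy, i, hi⟩ := hk
    obtain ⟨z, hz, w, hw, hzw, j, hj⟩ := hl
    have s1 := exists_sup S0 P a ν hL x y hx hy hxy i
    have s2 := exists_sup S0 P a ν hL z w hz hw hzw j
    have hpow : (ref P.f x y i * ref P.f z w j) ^ P.K = 1 := by
      rw [← hi, ← hj, hUmul]
      obtain ⟨e, he⟩ := P.dvd s t hst
      rw [conj_pow, ← zpow_natCast, ← zpow_mul]
      rw [hdvd]
      exact ⟨((k : ℤ) - (l : ℤ)) * (e : ℤ), by rw [he]; push_cast; ring⟩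
    have hcr := P.supp x y z w i j hxy hzw hpow
    rw [← hi] at s1
    rw [← hj] at s2
    exact cross S0 P a hD ha s1 s2 (fun c hc c' hc' => hcr c c' hc hc') hne
  by_cases hB : ∀ k l : ℕ, U k ∈ T → U l ∈ T → U k ≠ U l →
      (U k * U l = U l * U k ∧ ν (U k) * ν (U l) = ν (U l) * ν (U k))
  · refine caseB U m hmpos T ν hUeq ?_ k0 hk0
    intro k l hk hl hne
    obtain ⟨h1, h2⟩ := hB k l hk hl hne
    refine ⟨?_, h2⟩
    rw [← hdvd]
    have h3 : v * (P.f s * P.f t) ^ (2 * ((k : ℤ) - (l : ℤ))) * v⁻¹ =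
        (U k * U l) * (U l * U k)⁻¹ := by
      rw [hUmul, hUmul]
      have h4 : 2 * ((k : ℤ) - (l : ℤ)) = ((k : ℤ) - (l : ℤ)) - ((l : ℤ) - (k : ℤ)) := by ring
      rw [h4, zpow_sub]
      group
    rw [h3, h1, mul_inv_cancel]
  · push Not at hB
    obtain ⟨k, l, hk, hl, hne, hkl⟩ := hB
    rcases hsup k l hk hl hne with h1 | ⟨x, hx, y, hy, hxy, hxy3, ⟨i, hi⟩, ⟨i', hi'⟩⟩
    · exact absurd h1.2 (hkl h1.1)
    have hM0 : M.M x y ≠ 0 := by omega
    have hpn : (P.f x * P.f y) ^ M.M x y = 1 := powM P x y hM0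
    set g : ℕ := Nat.gcd m (M.M x y) with hg
    have hrr : v * (P.f s * P.f t) ^ ((k : ℤ) - (l : ℤ)) * v⁻¹ =
        (P.f x * P.f y) ^ (i - i') := by
      rw [← hUmul, hi, hi', tz_mul _ _ (P.sq x) (P.sq y)]
    have hrne : (P.f x * P.f y) ^ (i - i') ≠ 1 := by
      rw [← hrr]
      intro h
      apply hne
      rw [hUeq, ← hdvd]
      exact h
    obtain ⟨ε, hε, hrot⟩ := zrot P x y s t v _ _ hxy hs hM0 hst hrr hrne
    -- elements of both cyclic groups
    have hboth : ∀ z z' : ℤ, v * (P.f s * P.f t) ^ z * v⁻¹ = (P.f x * P.f y) ^ z' →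
        (m : ℤ) ∣ z * (g : ℤ) := by
      intro z z' h
      rw [← hdvd, zpow_mul, zpow_natCast, ← conj_pow, h]
      have e1 : ((P.f x * P.f y) ^ z') ^ M.M x y = 1 := by
        rw [← zpow_natCast, ← zpow_mul, mul_comm, zpow_mul, zpow_natCast, hpn, one_zpow]
      have e2 : ((P.f x * P.f y) ^ z') ^ m = 1 := by
        rw [← h, conj_pow, ← zpow_natCast, ← zpow_mul, hdvd]
        exact ⟨z, by ring⟩
      exact pow_gcd_eq_one.2 ⟨e2, e1⟩
    have hg0 : 0 < g := Nat.gcd_pos_of_pos_left _ hmpos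
    have hg1 : g ≠ 1 := by
      intro h
      have h2 := hboth _ _ hrr
      rw [h, Nat.cast_one, mul_one, ← hUeq] at h2
      exact hne h2
    obtain ⟨d, hd⟩ : ∃ d, m = d * g := by
      obtain ⟨d, hd⟩ := Nat.gcd_dvd_left m (M.M x y)
      exact ⟨d, by rw [mul_comm]; exact hd⟩
    have hd0 : 0 < d := by
      rcases Nat.eq_zero_or_pos d with h | h
      · rw [h, zero_mul] at hd
        omega
      · exact h
    have hmg : m / g = d := by
      rw [hd]; exact Nat.mul_div_left d hg0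
    have hmd : m / d = g := by
      conv_lhs => rw [hd]
      exact Nat.mul_div_right g hd0
    rw [hmg] at hrot
    set e : ℕ := M.M x y / g with he
    -- the elements in the dihedral group of x, y
    have hmemT : ∀ (j : ℕ) (z : ℤ), U j = tz (P.f x) (P.f y) z → U j ∈ T := by
      intro j z hz
      refine ⟨x, hx, y, hy, hM0, (z % (M.M x y : ℤ)).toNat, ?_⟩
      rw [hz]
      exact tz_nat P x y hM0 z
    have hback : ∀ j : ℕ, (d : ℤ) ∣ (j : ℤ) - (k : ℤ) →
        ∃ z, U j = tz (P.f x) (P.f y) z := by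
      intro j hj
      obtain ⟨z, hz⟩ := hj
      have h2 : v * (P.f s * P.f t) ^ ((j : ℤ) - (k : ℤ)) * v⁻¹ =
          (P.f x * P.f y) ^ (ε * (e : ℤ) * z) := by
        rw [hz, zpow_mul, zpow_natCast, ← conj_zpow, hrot, ← zpow_mul]
      rw [← hUmul, hi] at h2
      refine ⟨ε * (e : ℤ) * z + i, ?_⟩
      rw [← rot_tz, ← h2, mul_assoc, tz_sq _ _ (P.sq x) (P.sq y), mul_one]
    have hforth : ∀ j : ℕ, U j ∈ T → ∃ z, U j = tz (P.f x) (P.f y) z := by
      intro j hj
      by_contra hcon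
      have hjk : U j ≠ U k := fun h => hcon ⟨i, by rw [h, hi]⟩
      have hjl : U j ≠ U l := fun h => hcon ⟨i', by rw [h, hi']⟩
      have hcomm : ∀ q : ℕ, U q ∈ T → U j ≠ U q → (∃ z, U q = tz (P.f x) (P.f y) z) →
          (m : ℤ) ∣ 2 * ((j : ℤ) - (q : ℤ)) := by
        intro q hq hjq _
        rcases hsup j q hj hq hjq with h1 | ⟨b, hb, c, hc, hbc, hbc3, ⟨z, hz⟩, ⟨z', hz'⟩⟩
        · rw [← hdvd]
          have h3 : v * (P.f s * P.f t) ^ (2 * ((j : ℤ) - (q : ℤ))) * v⁻¹ =
              (U j * U q) * (U q * U j)⁻¹ := by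
            rw [hUmul, hUmul]
            have h4 : 2 * ((j : ℤ) - (q : ℤ)) =
              ((j : ℤ) - (q : ℤ)) - ((q : ℤ) - (j : ℤ)) := by ring
            rw [h4, zpow_sub]
            group
          rw [h3, h1.1, mul_inv_cancel]
        · exfalso
          have h5 : v * (P.f s * P.f t) ^ ((j : ℤ) - (q : ℤ)) * v⁻¹ =
              (P.f b * P.f c) ^ (z - z') := by
            rw [← hUmul, hz, hz', tz_mul _ _ (P.sq b) (P.sq c)]
          have h6 : (P.f b * P.f c) ^ (z - z') ≠ 1 := by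
            rw [← h5]
            intro h
            apply hjq
            rw [hUeq, ← hdvd]
            exact h
          have h7 := zplane P x y b c s t v _ _ _ _ hxy hbc hs hM0 (by omega) hst hrr hrne h5 h6
          rcases h7 with ⟨h8 | h8, h9 | h9⟩
          · exact hbc (h8.trans h9.symm)
          · subst h8
            subst h9
            exact hcon ⟨z, hz⟩
          · subst h8
            subst h9
            exact hcon ⟨-z - 1, by rw [hz, tz_swap _ _ (P.sq c) (P.sq b)]⟩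
          · exact hbc (h8.trans h9.symm)
      have c1 := hcomm k hk hjk ⟨i, hi⟩
      have c2 := hcomm l hl hjl ⟨i', hi'⟩
      rw [ne_eq, hUeq] at hjk hjl hne
      obtain ⟨b1, hb1⟩ := c1
      obtain ⟨b2, hb2⟩ := c2
      rcases Int.even_or_odd' b1 with ⟨r1, hr1 | hr1⟩
      · apply hjk
        exact ⟨r1, by rw [hr1] at hb1; linarith⟩
      rcases Int.even_or_odd' b2 with ⟨r2, hr2 | hr2⟩
      · apply hjl
        exact ⟨r2, by rw [hr2] at hb2; linarith⟩
      apply hne
      refine ⟨r2 - r1, ?_⟩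
      rw [hr1] at hb1
      rw [hr2] at hb2
      linarith
    refine pack U m T ν d hd0 ⟨g, hd⟩ k ?_ ?_
    · intro j
      constructor
      · intro hj
        obtain ⟨z, hz⟩ := hforth j hj
        have h2 : v * (P.f s * P.f t) ^ ((j : ℤ) - (k : ℤ)) * v⁻¹ =
            (P.f x * P.f y) ^ (z - i) := by
          rw [← hUmul, hz, hi, tz_mul _ _ (P.sq x) (P.sq y)]
        have h3 := hboth _ _ h2
        have h4 : (m : ℤ) = (d : ℤ) * (g : ℤ) := by exact_mod_cast hd
        rw [h4] at h3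
        exact Int.dvd_of_mul_dvd_mul_right (by exact_mod_cast hg0.ne') h3
      · intro hj
        obtain ⟨z, hz⟩ := hback j hj
        exact hmemT j z hz
    · intro j hj
      obtain ⟨z, hz⟩ := hforth j hj
      rw [hmd]
      have h2 : U (j + d) = tz (P.f x) (P.f y) (ε * (e : ℤ) + z) := by
        have h3 : U (j + d) * U j = (P.f x * P.f y) ^ (ε * (e : ℤ)) := by
          rw [hUmul, ← hrot]
          congr 2
          rw [← zpow_natCast]
          congr 1
          push_cast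
          ring
        rw [← rot_tz, ← h3, ← hz, mul_assoc, hUsq, mul_one]
      have hlet := letters S0 P a ν hL x y hx hy hxy hM0 m (hG x hx y hy hxy hM0 s t hs hst) hg1
      rw [h2, hz]
      rcases hε with h4 | h4
      · rw [h4, one_mul, add_comm]
        exact hlet z
      · have h5 := hlet (-1 * (e : ℤ) + z)
        have h6 : -1 * (e : ℤ) + z + (e : ℤ) = z := by ring
        rw [h6] at h5
        rw [h4]
        exact h5.symm

end Main

end Art.H15
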